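import Pool.Agent.TH706.LB.Sparse

/-!
# Shortest paths in sparse directed graphs with few registers and a stack

Can directed reachability be decided in polynomial time with space `N ^ (1 - ε)`, for `N` vertices?
Barnes, Buss, Ruzzo and Schieber have polynomial time with space `N / 2 ^ Ω(√log N)`, Savitch space
`O(log² N)` with time `N ^ O(log N)`.

We consider pure dynamic programs, which compute the length of a shortest path step by step with a
few registers, which hold real numbers or infinity, using the operations `min` and `+` (a step also
can load a weight or a constant; the program may depend on the graph in any way), or the sum over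
all paths of the products of the weights, with `+` and `*` over the nonnegative real numbers.  In
addition they have a stack (pushdown store) of unlimited height for such numbers, which is not
counted as space.  For machines such a stack gives all of `P` already with logarithmic space (Cook).
We show that in this model it does not help: for layered graphs in which each vertex has at most two
successors and two predecessors

* with `N ^ (1 - ε)` registers and a stack `N ^ Ω(log N)` steps are necessary;
* with `N ^ a` steps and a stack at least `N / 2 ^ O(√log N)` registers are necessary.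

So the bounds of Barnes, Buss, Ruzzo, Schieber and of Savitch cannot be improved by such programs.
Without a stack this is helper679's result `SparseShortestPaths` for `MP_e46137_lc` (which also has
the matching programs); the stack is eliminated by `Pool.Agent.TH706.SK.simulate_eps`.
-/

set_option autoImplicit false

namespace Pool.Agent.Results.MP_f83138_lc.SparsePathsStack

open Filter
open Pool.Agent.TH679.DB
open Pool.Agent.TH706.SK (SInstr)
open Pool.Agent.TH706.LB (StackMin StackSum sparse_steps sparse_regs)
open scoped NNReal

/-- (1) Each vertex has at most two successors and at most two predecessors.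

(2) For each `ε` there is `c > 0` such that for all large `d` and the layered graph with the words
of length `d` over two letters and `T + 1` columns, `T = d ⌈2 ^ (ε d / 4)⌉`, with `N` vertices,
programs with at most `N ^ (1 - ε)` registers and a stack have at least `N ^ (c log₂ N)` steps.

(3) For `T = d 2 ^ ⌈√d⌉`: for each `a` there is `C` such that for all large `d` programs with at most
`N ^ a` steps and a stack have at least `N / 2 ^ (C √log₂ N)` registers. -/
theorem result :
    (∀ d : ℕ, 1 ≤ d → ∀ u : Word 2 d,
      (Finset.univ.filter fun v : Word 2 d => Shift u v).card ≤ 2 ∧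
      (Finset.univ.filter fun v : Word 2 d => Shift v u).card ≤ 2) ∧
    (∀ ε : ℝ, 0 < ε → ε ≤ 1 → ∃ c : ℝ, 0 < c ∧ ∀ᶠ d : ℕ in atTop, ∀ T N : ℕ,
      T = d * ⌈(2 : ℝ) ^ (ε / 4 * d)⌉₊ → N = Fintype.card (Fin (T + 1) × Word 2 d) →
      ∀ (ρ : Type) [Fintype ρ] [DecidableEq ρ] (o : ρ),
        (Fintype.card ρ : ℝ) ≤ (N : ℝ) ^ (1 - ε) →
        (∀ p : List (SInstr (Tropical (WithTop ℝ)) (Edge T (Shift (m := 2) (d := d))) ρ),
          StackMin p o → (N : ℝ) ^ (c * Real.logb 2 N) ≤ p.length) ∧
        (∀ p : List (SInstr ℝ≥0 (Edge T (Shift (m := 2) (d := d))) ρ),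
          StackSum p o → (N : ℝ) ^ (c * Real.logb 2 N) ≤ p.length)) ∧
    (∀ a : ℝ, ∃ C : ℝ, ∀ᶠ d : ℕ in atTop, ∀ T N : ℕ,
      T = d * 2 ^ ⌈Real.sqrt d⌉₊ → N = Fintype.card (Fin (T + 1) × Word 2 d) →
      ∀ (ρ : Type) [Fintype ρ] [DecidableEq ρ] (o : ρ),
        (∀ p : List (SInstr (Tropical (WithTop ℝ)) (Edge T (Shift (m := 2) (d := d))) ρ),
          StackMin p o → (p.length : ℝ) ≤ (N : ℝ) ^ a →
            (N : ℝ) / 2 ^ (C * Real.sqrt (Real.logb 2 N)) ≤ Fintype.card ρ) ∧
        (∀ p : List (SInstr ℝ≥0 (Edge T (Shift (m := 2) (d := d))) ρ),
          StackSum p o → (p.length : ℝ) ≤ (N : ℝ) ^ a →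
            (N : ℝ) / 2 ^ (C * Real.sqrt (Real.logb 2 N)) ≤ Fintype.card ρ)) := by
  refine ⟨fun d hd u => ⟨?_, ?_⟩, fun ε h1 h2 => sparse_steps ε h1 h2, fun a => sparse_regs a⟩
  · exact Pool.Agent.Results.MP_e46137_lc.SparseShortestPaths.out_le hd u
  · exact Pool.Agent.Results.MP_e46137_lc.SparseShortestPaths.in_le hd u

end Pool.Agent.Results.MP_f83138_lc.SparsePathsStack
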